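import Pool.Agent.H327R4.NU.UM.Stubs

/-!
# Gluing: the relations of the matrix units (task GLUEB, helper666)
-/

set_option autoImplicit false
set_option linter.unusedSectionVars false

namespace Pool.Agent.H327R4.NU.UM

open Filter Topology Pool.Agent.H327R4.Pure Pool.Agent.H327R4.NU

universe u

namespace GLUEB

variable {A : Type u} [CStarAlgebra A] [PartialOrder A] [StarOrderedRing A] [TrSet A]

theorem norm_le_one {x : A} (h : star x * x ≤ 1) : ‖x‖ ≤ 1 := by
  have h1 : ‖star x * x‖ ≤ 1 :=
    (CStarAlgebra.norm_le_one_iff_of_nonneg (star x * x) (star_mul_self_nonneg x)).2 h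
  rw [CStarRing.norm_star_mul_self] at h1
  nlinarith [norm_nonneg x]

/-- a seminorm with the module property -/
structure SN (p : A → ℝ) : Prop where
  nn : ∀ x, 0 ≤ p x
  zero : p 0 = 0
  add : ∀ x y, p (x + y) ≤ p x + p y
  pst : ∀ x, p (star x) = p x
  neg : ∀ x, p (-x) = p x
  ml : ∀ x y, p (x * y) ≤ ‖x‖ * p y
  mr : ∀ x y, p (x * y) ≤ p x * ‖y‖

theorem SN.sum {p : A → ℝ} (h : SN p) {ι : Type} (s : Finset ι) (g : ι → A) :
    p (∑ i ∈ s, g i) ≤ ∑ i ∈ s, p (g i) := by
  classical
  induction s using Finset.induction_on with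
  | empty => simp [h.zero]
  | insert a s ha ih =>
    rw [Finset.sum_insert ha, Finset.sum_insert ha]
    exact (h.add _ _).trans (by linarith)

theorem SN.two {p : A → ℝ} (h : SN p) {x y z : A} (hx : ‖x‖ ≤ 1) (hz : ‖z‖ ≤ 1) :
    p (x * y * z) ≤ p y := by
  refine (h.mr _ _).trans ?_
  have h1 : p (x * y) ≤ p y := by
    refine (h.ml _ _).trans ?_
    have := h.nn y
    nlinarith [norm_nonneg x]
  have h2 := h.nn (x * y)
  nlinarith [norm_nonneg z]

theorem SN.dbl {p : A → ℝ} (h : SN p) {N : ℕ} (t : Fin N → Fin N → A) (d : Fin N → A) {ε : ℝ}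
    (hε : 0 ≤ ε) (h1 : ∀ w w', w ≠ w' → p (t w w') ≤ ε) (h2 : ∀ w, p (t w w - d w) ≤ 4 * ε) :
    p (∑ w, ∑ w', t w w' - ∑ w, d w) ≤ 4 * N ^ 2 * ε := by
  classical
  have e : ∑ w, ∑ w', t w w' - ∑ w, d w =
      ∑ w, ∑ w', (t w w' - if w = w' then d w else 0) := by
    rw [← Finset.sum_sub_distrib]
    refine Finset.sum_congr rfl fun w _ => ?_
    rw [Finset.sum_sub_distrib]
    simp
  rw [e]
  calc p (∑ w, ∑ w', (t w w' - if w = w' then d w else 0))
      ≤ ∑ w, ∑ w', p (t w w' - if w = w' then d w else 0) :=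
        (h.sum _ _).trans (Finset.sum_le_sum fun w _ => h.sum _ _)
    _ ≤ ∑ _w : Fin N, ∑ _w' : Fin N, 4 * ε := by
        refine Finset.sum_le_sum fun w _ => Finset.sum_le_sum fun w' _ => ?_
        by_cases hw : w = w'
        · subst hw
          simpa using h2 w
        · simp only [hw, if_false, sub_zero]
          have := h1 w w' hw
          linarith
    _ = 4 * N ^ 2 * ε := by
        simp only [Finset.sum_const, Finset.card_univ, Fintype.card_fin, nsmul_eq_mul]
        ring

theorem mul_norm_le {x y : A} (hx : ‖x‖ ≤ 1) (hy : ‖y‖ ≤ 1) : ‖x * y‖ ≤ 1 :=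
  (norm_mul_le _ _).trans (mul_le_one₀ hx (norm_nonneg _) hy)

theorem SN.diag {p : A → ℝ} (h : SN p) {r z1 z2 : A} {ε : ℝ} (hr : ‖r‖ ≤ 1) (h1 : ‖z1‖ ≤ 1)
    (h2 : ‖z2‖ ≤ 1) (ha : p (star r * z2 - z2 * star r) ≤ ε) (hb : p (r * z2 - z2 * r) ≤ ε)
    (hc : p (r * star r * r - r) ≤ ε) :
    p (star r * z1 * r * (star r * z2 * r) - star r * (z1 * z2) * r) ≤ 3 * ε := by
  have hr' : ‖star r‖ ≤ 1 := by rwa [norm_star]
  have e : star r * z1 * r * (star r * z2 * r) - star r * (z1 * z2) * r =
      (star r * z1 * r) * (star r * z2 - z2 * star r) * r +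
        (star r * z1) * (r * z2 - z2 * r) * (star r * r) +
        (star r * z1 * z2) * (r * star r * r - r) * 1 := by
    noncomm_ring
  rw [e]
  refine (h.add _ _).trans ?_
  have e1 := h.add ((star r * z1 * r) * (star r * z2 - z2 * star r) * r)
    ((star r * z1) * (r * z2 - z2 * r) * (star r * r))
  have f1 := h.two (x := star r * z1 * r) (y := star r * z2 - z2 * star r) (z := r)
    (mul_norm_le (mul_norm_le hr' h1) hr) hr
  have f2 := h.two (x := star r * z1) (y := r * z2 - z2 * r) (z := star r * r)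
    (mul_norm_le hr' h1) (mul_norm_le hr' hr)
  have f3 := h.two (x := star r * z1 * z2) (y := r * star r * r - r) (z := 1)
    (mul_norm_le (mul_norm_le hr' h1) h2) (by
      rcases subsingleton_or_nontrivial A with hA | hA
      · rw [Subsingleton.elim (1 : A) 0, norm_zero]
        norm_num
      · rw [CStarRing.norm_one])
  linarith

theorem SN.off {p : A → ℝ} (h : SN p) {r r' z1 z2 : A} {ε : ℝ} (hr : ‖r‖ ≤ 1) (hr1 : ‖r'‖ ≤ 1)
    (h1 : ‖z1‖ ≤ 1) (h2 : ‖z2‖ ≤ 1) (ha : p (r * star r') ≤ ε) :
    p (star r * z1 * r * (star r' * z2 * r')) ≤ ε := by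
  have hr' : ‖star r‖ ≤ 1 := by rwa [norm_star]
  have e : star r * z1 * r * (star r' * z2 * r') = (star r * z1) * (r * star r') * (z2 * r') := by
    noncomm_ring
  rw [e]
  exact (h.two (mul_norm_le hr' h1) (mul_norm_le h2 hr1)).trans ha

end GLUEB

open GLUEB in
theorem t_GLUEB (hTB : StTB.{u}) (hNRM : StNRM.{u}) : StGLUEB.{u} := by
  intro A _ _ _ _ N r z hsum hz T hT ε hε hoff hrrr hrz hrzs hzz
  obtain ⟨b0, bsq, badd, bsub, bsmul, bstar, bml, bmr, ble, -, -, bmono, -, -, -, -⟩ :=
    hTB A T hT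
  have hS : SN (n2 T) :=
    { nn := b0
      zero := by
        have h1 := ble 0
        rw [norm_zero] at h1
        exact le_antisymm h1 (b0 0)
      add := badd
      pst := bstar
      neg := fun x => by
        have h1 := bsmul (-1) x
        simpa using h1
      ml := bml
      mr := bmr }
  have hr1 : ∀ w, ‖r w‖ ≤ 1 := by
    intro w
    apply norm_le_one
    rw [← hsum]
    exact Finset.single_le_sum (f := fun w => star (r w) * r w)
      (fun i _ => star_mul_self_nonneg (r i)) (Finset.mem_univ w)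
  have hz1 : ∀ w, ‖z w‖ ≤ 1 := fun w => norm_le_one (hz w)
  have hzs1 : ∀ w, ‖star (z w)‖ ≤ 1 := fun w => by rw [norm_star]; exact hz1 w
  -- commutators with `star r`
  have hsz : ∀ w, n2 T (star (r w) * z w - z w * star (r w)) ≤ ε := by
    intro w
    have h1 := hrzs w
    rw [← bstar, star_sub, star_mul, star_mul, star_star] at h1
    rw [← hS.neg, neg_sub]
    exact h1
  have hszs : ∀ w, n2 T (star (r w) * star (z w) - star (z w) * star (r w)) ≤ ε := by
    intro w
    have h1 := hrz w
    rw [← bstar, star_sub, star_mul, star_mul] at h1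
    rw [← hS.neg, neg_sub]
    exact h1
  set v : A := ∑ w, star (r w) * z w * r w with hv
  have hvs : star v = ∑ w, star (r w) * star (z w) * r w := by
    rw [hv, star_sum]
    refine Finset.sum_congr rfl fun w _ => ?_
    rw [star_mul, star_mul, star_star, mul_assoc]
  have A1 : n2 T (v * v - ∑ _w : Fin N, (0 : A)) ≤ 4 * N ^ 2 * ε := by
    rw [hv, Finset.sum_mul_sum]
    refine hS.dbl _ _ hε (fun w w' hw => ?_) (fun w => ?_)
    · exact hS.off (hr1 w) (hr1 w') (hz1 w) (hz1 w') (hoff w w' hw)
    · have h1 := hS.diag (hr1 w) (hz1 w) (hz1 w) (hsz w) (hrz w) (hrrr w)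
      have h2 : n2 T (star (r w) * (z w * z w) * r w) ≤ ε :=
        (hS.two (by rw [norm_star]; exact hr1 w) (hr1 w)).trans (hzz w)
      have h3 := badd (star (r w) * z w * r w * (star (r w) * z w * r w) -
        star (r w) * (z w * z w) * r w) (star (r w) * (z w * z w) * r w)
      rw [sub_add_cancel] at h3
      rw [sub_zero]
      linarith
  have A2 : n2 T (star v * v - ∑ w, star (r w) * (star (z w) * z w) * r w) ≤ 4 * N ^ 2 * ε := by
    rw [hvs, hv, Finset.sum_mul_sum]
    refine hS.dbl _ _ hε (fun w w' hw => ?_) (fun w => ?_)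
    · exact hS.off (hr1 w) (hr1 w') (hzs1 w) (hz1 w') (hoff w w' hw)
    · have h1 := hS.diag (hr1 w) (hzs1 w) (hz1 w) (hsz w) (hrz w) (hrrr w)
      linarith
  have A3 : n2 T (v * star v - ∑ w, star (r w) * (z w * star (z w)) * r w) ≤ 4 * N ^ 2 * ε := by
    rw [hvs, hv, Finset.sum_mul_sum]
    refine hS.dbl _ _ hε (fun w w' hw => ?_) (fun w => ?_)
    · exact hS.off (hr1 w) (hr1 w') (hz1 w) (hzs1 w') (hoff w w' hw)
    · have h1 := hS.diag (hr1 w) (hz1 w) (hzs1 w) (hszs w) (hrzs w) (hrrr w)
      linarith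
  refine ⟨?_, ?_⟩
  · simpa using A1
  · set D : Fin N → A := fun w => 1 - (star (z w) * z w + z w * star (z w)) with hD
    have hDs : ∀ w, star (D w) = D w := by
      intro w
      simp only [hD, star_sub, star_add, star_mul, star_star, star_one]
    set S : A := ∑ w, star (r w) * (D w * r w) with hSdef
    have hSn : n2 T S ≤ Real.sqrt (∑ w, re T (r w * star (r w) * (D w * D w))) := by
      apply Real.le_sqrt_of_sq_le
      rw [bsq]
      have h1 := bmono _ _ (hNRM A N r (fun w => D w * r w) hsum.le)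
      refine h1.trans (le_of_eq ?_)
      have h2 : re T (∑ w, star (D w * r w) * (D w * r w)) =
          ∑ w, re T (star (D w * r w) * (D w * r w)) := by
        unfold re
        rw [map_sum, Complex.re_sum]
      rw [h2]
      refine Finset.sum_congr rfl fun w _ => ?_
      unfold re
      rw [star_mul, hDs]
      have h3 : star (r w) * D w * (D w * r w) = (star (r w) * (D w * D w)) * r w := by
        noncomm_ring
      rw [h3, T.tr]
      congr 2
      noncomm_ring
    have hmain : 1 - (star v * v + v * star v) = S -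
        (star v * v - ∑ w, star (r w) * (star (z w) * z w) * r w) -
        (v * star v - ∑ w, star (r w) * (z w * star (z w)) * r w) := by
      have h1 : S = 1 - ∑ w, star (r w) * (star (z w) * z w) * r w -
          ∑ w, star (r w) * (z w * star (z w)) * r w := by
        rw [← hsum, hSdef, ← Finset.sum_sub_distrib, ← Finset.sum_sub_distrib]
        refine Finset.sum_congr rfl fun w _ => ?_
        simp only [hD]
        noncomm_ring
      rw [h1]
      abel
    rw [hmain]
    have g1 := bsub (S - (star v * v - ∑ w, star (r w) * (star (z w) * z w) * r w))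
      (v * star v - ∑ w, star (r w) * (z w * star (z w)) * r w)
    have g2 := bsub S (star v * v - ∑ w, star (r w) * (star (z w) * z w) * r w)
    linarith

end Pool.Agent.H327R4.NU.UM
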