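import Pool.Agent.H327R4.NU.UM.Stubs

/-! LOC: from decomposable approximations and `ComZ` to `Loc`. -/

set_option autoImplicit false

namespace Pool.Agent.H327R4.NU.UM

open Filter Topology Pool.Agent.H327R4.Pure Pool.Agent.H327R4.NU

universe u

namespace LOCaux

variable {A : Type u} [CStarAlgebra A] [PartialOrder A] [StarOrderedRing A] [TrSet A]

theorem re_sum_smul {K : ℕ} (T : Tr A) (l : Fin K → ℝ) (x : Fin K → A) :
    re T (∑ k, (l k : ℂ) • x k) = ∑ k, l k * re T (x k) := by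
  unfold re
  rw [map_sum, Complex.re_sum]
  refine Finset.sum_congr rfl fun k _ => ?_
  rw [map_smul, smul_eq_mul, Complex.re_ofReal_mul]

theorem re_smul_one (T : Tr A) (hT : St T) (c : ℝ) : re T ((c : ℂ) • (1 : A)) = c := by
  unfold re
  rw [map_smul, hT.1, smul_eq_mul, mul_one, Complex.ofReal_re]

theorem norm_le_one {z : A} (hz : star z * z ≤ 1) : ‖z‖ ≤ 1 := by
  have h1 : ‖star z * z‖ ≤ 1 :=
    (CStarAlgebra.norm_le_one_iff_of_nonneg (star z * z) (star_mul_self_nonneg z)).mpr hz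
  rw [CStarRing.norm_star_mul_self] at h1
  nlinarith [norm_nonneg z]

/-- the commutator with `a` through an approximation `p` of `a` -/
theorem comm_bound (hTB : StTB.{u}) (T : Tr A) (hT : St T) (z p a : A) (e : ℝ)
    (hz : ‖z‖ ≤ 1) (h : n2 T (z * p - p * z) ≤ e) :
    n2 T (z * a - a * z) ^ 2 ≤ 2 * e ^ 2 + 8 * n2 T (p - a) ^ 2 := by
  obtain ⟨t1, t2, t3, t4, t5, t6, t7, t8, -⟩ := hTB A T hT
  have h1 : z * a - a * z = (z * p - p * z) - (z * (p - a) - (p - a) * z) := by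
    noncomm_ring
  have h2 : n2 T (z * a - a * z) ≤ e + 2 * n2 T (p - a) := by
    rw [h1]
    have h3 := t4 (z * p - p * z) (z * (p - a) - (p - a) * z)
    have h4 := t4 (z * (p - a)) ((p - a) * z)
    have h5 := t7 z (p - a)
    have h6 := t8 (p - a) z
    have h7 := t1 (p - a)
    have h8 : ‖z‖ * n2 T (p - a) ≤ n2 T (p - a) := by nlinarith
    have h9 : n2 T (p - a) * ‖z‖ ≤ n2 T (p - a) := by nlinarith
    linarith
  have h0 := t1 (z * a - a * z)
  have h3 : n2 T (z * a - a * z) ^ 2 ≤ (e + 2 * n2 T (p - a)) ^ 2 :=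
    pow_le_pow_left₀ h0 h2 2
  nlinarith [sq_nonneg (e - 2 * n2 T (p - a))]

end LOCaux

open LOCaux in
theorem t_LOC (hTB : StTB.{u}) (hVAR : StVAR.{u}) (hVAR1 : StVAR1.{u}) : StLOC.{u} := by
  intro A _ _ _ _ hZ hD m a ε hε
  set M : ℝ := ∑ j, ‖a j‖ with hM
  have hM0 : 0 ≤ M := Finset.sum_nonneg fun j _ => norm_nonneg _
  have haM : ∀ j, ‖a j‖ ≤ M := fun j =>
    Finset.single_le_sum (f := fun j => ‖a j‖) (fun i _ => norm_nonneg _) (Finset.mem_univ j)
  obtain ⟨e0, he0, he01, he0ε⟩ : ∃ e0 : ℝ, 0 < e0 ∧ e0 ≤ 1 ∧ e0 * (1 + 2 * M) ≤ ε / 20 := by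
    refine ⟨min 1 (ε / (20 * (1 + 2 * M))), lt_min one_pos (by positivity), min_le_left _ _, ?_⟩
    calc min 1 (ε / (20 * (1 + 2 * M))) * (1 + 2 * M) ≤ ε / (20 * (1 + 2 * M)) * (1 + 2 * M) := by
          gcongr
          exact min_le_right _ _
      _ = ε / 20 := by field_simp
  have he0ε' : e0 ≤ ε / 20 := by nlinarith
  -- the finite family
  let F : Option (Fin m ⊕ Fin m) → A := fun o => match o with
    | none => 1
    | some (Sum.inl j) => a j
    | some (Sum.inr j) => star (a j) * a j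
  let eq := Fintype.equivFin (Option (Fin m ⊕ Fin m))
  obtain ⟨b, n, ψ, K, l, φ, hψ, hl0, hl1, hφ, hF⟩ := hD _ (fun i => F (eq.symm i)) e0 he0
  have hF' : ∀ o, ‖∑ k, (l k : ℂ) • φ k (ψ (F o)) - F o‖ ≤ e0 := by
    intro o
    have := hF (eq o)
    simpa using this
  refine ⟨K, l, hl0, hl1, ?_⟩
  intro ε' hε'
  set e1 : ℝ := min ε' e0 with he1
  have he1p : 0 < e1 := lt_min hε' he0
  have he1a : e1 ≤ ε' := min_le_left _ _
  have he1b : e1 ≤ e0 := min_le_right _ _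
  choose z hz1 hz2 using fun k => hZ b n (φ k) (hφ k) m (fun j => ψ (a j)) e1 he1p
  refine ⟨z, hz1, ?_⟩
  intro T hT
  obtain ⟨t1, t2, t3, t4, t5, t6, t7, t8, t9, t10, t11, t12, -⟩ := hTB A T hT
  refine ⟨fun k => (hz2 k T hT).1.trans he1a, ?_, ?_⟩
  · have h1 : ∑ k, l k * n2 T (1 - (star (z k) * z k + z k * star (z k))) ^ 2 ≤
        ∑ k, l k * (8 * re T (1 - φ k 1) + e1) :=
      Finset.sum_le_sum fun k _ => mul_le_mul_of_nonneg_left (hz2 k T hT).2.1 (hl0 k)
    have h2 : ∑ k, l k * (8 * re T (1 - φ k 1) + e1) =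
        8 * re T (∑ k, (l k : ℂ) • (1 - φ k 1)) + e1 := by
      rw [re_sum_smul, Finset.mul_sum]
      have : e1 = ∑ k, l k * e1 := by rw [← Finset.sum_mul, hl1, one_mul]
      conv_rhs => rw [this]
      rw [← Finset.sum_add_distrib]
      refine Finset.sum_congr rfl fun k _ => by ring
    have h3 := t12 _ _ (hVAR1 A b n ψ K l φ e0 hψ hl0 hl1 hφ (hF' none))
    rw [re_smul_one T hT] at h3
    linarith
  · intro j
    have h1 : ∑ k, l k * n2 T (z k * a j - a j * z k) ^ 2 ≤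
        ∑ k, l k * (2 * e1 ^ 2 + 8 * re T (star (φ k (ψ (a j)) - a j) * (φ k (ψ (a j)) - a j))) := by
      refine Finset.sum_le_sum fun k _ => mul_le_mul_of_nonneg_left ?_ (hl0 k)
      rw [← t2]
      exact comm_bound hTB T hT (z k) (φ k (ψ (a j))) (a j) e1 (norm_le_one (hz1 k))
        ((hz2 k T hT).2.2 j)
    have h2 : ∑ k, l k *
        (2 * e1 ^ 2 + 8 * re T (star (φ k (ψ (a j)) - a j) * (φ k (ψ (a j)) - a j))) =
        2 * e1 ^ 2 + 8 * re T (∑ k, (l k : ℂ) •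
          (star (φ k (ψ (a j)) - a j) * (φ k (ψ (a j)) - a j))) := by
      rw [re_sum_smul, Finset.mul_sum]
      have : 2 * e1 ^ 2 = ∑ k, l k * (2 * e1 ^ 2) := by rw [← Finset.sum_mul, hl1, one_mul]
      conv_rhs => rw [this]
      rw [← Finset.sum_add_distrib]
      refine Finset.sum_congr rfl fun k _ => by ring
    have h3 := t12 _ _ (hVAR A b n ψ K l φ (a j) e0 hψ hl0 hl1 hφ (hF' (some (Sum.inl j)))
      (hF' (some (Sum.inr j))))
    rw [re_smul_one T hT] at h3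
    have h4 : e0 * (1 + 2 * ‖a j‖) ≤ e0 * (1 + 2 * M) := by
      have := haM j
      gcongr
    have h5 : e1 ^ 2 ≤ e0 := by nlinarith
    linarith

end Pool.Agent.H327R4.NU.UM
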