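import Pool.Agent.H327R4.NU.UM.Stubs
import Pool.Agent.H327R4.NU.TFOI1

/-! Task NILG: nilpotents almost commuting with one positive contraction. -/

set_option autoImplicit false

namespace Pool.Agent.H327R4.NU.UM

open Filter Topology Pool.Agent.H327R4.Pure Pool.Agent.H327R4.NU Pool.Agent.H327R4.NU.FOI1

universe u

namespace NILG

variable {A : Type u} [CStarAlgebra A] [PartialOrder A] [StarOrderedRing A] [TrSet A]

/-- orthogonality -/
lemma orth2 {D D' a b : A} (h0 : 0 ≤ D) (h1 : D ≤ 1) (hD : D * D' = 0)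
    (ha : a * (1 - D * cfc q0 D) = 0) (hb : (1 - D' * cfc q0 D') * b = 0) : a * b = 0 := by
  have ha' : a = a * (D * cfc q0 D) := by
    rw [mul_sub, mul_one, sub_eq_zero] at ha
    exact ha
  have hb' : b = (D' * cfc q0 D') * b := by
    rw [sub_mul, one_mul, sub_eq_zero] at hb
    exact hb
  rw [ha', hb', G_eq h0 h1, ← G_eq' h0 h1]
  have : a * (cfc q0 D * D) * (D' * cfc q0 D' * b) = a * cfc q0 D * (D * D') * cfc q0 D' * b := by
    noncomm_ring
  rw [this, hD]
  simp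

/-- the sum of `(g - t_i) u_i` -/
lemma sum_est (hTB : StTB.{u}) (T : Tr A) (hST : St T) {N : ℕ} (g : A) (hg : IsSelfAdjoint g)
    (D : Fin N → A) (u : Fin N → A) (t : Fin N → ℝ) (δ : ℝ) (hδ : 0 ≤ δ)
    (hD0 : ∀ i, 0 ≤ D i) (hD1 : ∀ i, D i ≤ 1)
    (hD : ∀ i, ‖(g - ((t i : ℝ) : ℂ) • 1) * D i‖ ≤ δ)
    (hG : ∀ i, (1 - D i * cfc q0 (D i)) * u i = 0)
    (ho : ∀ i j, i ≠ j → u i * star (u j) = 0) (hs : ∑ i, n2 T (u i) ^ 2 ≤ 1) :
    n2 T (∑ i, (g - ((t i : ℝ) : ℂ) • 1) * u i) ≤ 2 * δ := by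
  obtain ⟨tb1, tb2, tb3, tb4, tb5, tb6, tb7, tb8, tb9, tb10, tb11, tb12, tb13, tb14, tb15, tb16⟩ :=
    hTB A T hST
  have re_sum : ∀ (g : Fin N → A), re T (∑ i, g i) = ∑ i, re T (g i) := by
    intro g; unfold re; rw [map_sum, Complex.re_sum]
  set z : Fin N → A := fun i => (g - ((t i : ℝ) : ℂ) • 1) * u i with hz
  have hwsa : ∀ i, IsSelfAdjoint (g - ((t i : ℝ) : ℂ) • (1 : A)) := by
    intro i
    refine hg.sub ?_
    rw [IsSelfAdjoint, star_smul, star_one]
    simp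
  have hzs : ∀ i, star (z i) = star (u i) * (g - ((t i : ℝ) : ℂ) • 1) := by
    intro i
    rw [hz]; simp only
    rw [star_mul, (hwsa i).star_eq]
  have hzn : ∀ i, n2 T (z i) ^ 2 ≤ (2 * δ) ^ 2 * n2 T (u i) ^ 2 := by
    intro i
    have e0 : u i = (D i * cfc q0 (D i)) * u i := by
      have := hG i
      rw [sub_mul, one_mul, sub_eq_zero] at this
      exact this
    have e : z i = ((g - ((t i : ℝ) : ℂ) • 1) * D i) * cfc q0 (D i) * u i := by
      rw [hz]; simp only
      conv_lhs => rw [e0]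
      noncomm_ring
    have h1 : n2 T (z i) ≤ (2 * δ) * n2 T (u i) := by
      rw [e]
      refine (tb7 _ _).trans (mul_le_mul_of_nonneg_right ?_ (tb1 _))
      refine (norm_mul_le _ _).trans ?_
      have := hD i
      have h2 := q_norm (hD0 i) (hD1 i)
      nlinarith [norm_nonneg (cfc q0 (D i)),
        norm_nonneg ((g - ((t i : ℝ) : ℂ) • 1) * D i)]
    have h3 := tb1 (z i)
    rw [← mul_pow]
    exact pow_le_pow_left₀ h3 h1 2
  have hzo : ∀ i j, i ≠ j → T.f (star (z i) * z j) = 0 := by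
    intro i j hij
    rw [hzs i, hz]; simp only
    have e : star (u i) * (g - ((t i : ℝ) : ℂ) • 1) *
        ((g - ((t j : ℝ) : ℂ) • 1) * u j) =
        (star (u i) * (g - ((t i : ℝ) : ℂ) • 1) * (g - ((t j : ℝ) : ℂ) • 1)) *
          u j := by simp only [mul_assoc]
    rw [e, T.tr]
    have e2 : u j * (star (u i) * (g - ((t i : ℝ) : ℂ) • 1) *
        (g - ((t j : ℝ) : ℂ) • 1)) = (u j * star (u i)) *
          (g - ((t i : ℝ) : ℂ) • 1) * (g - ((t j : ℝ) : ℂ) • 1) := by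
      simp only [mul_assoc]
    rw [e2, ho j i (Ne.symm hij)]
    simp
  have hZ : n2 T (∑ i, z i) ^ 2 ≤ (2 * δ) ^ 2 := by
    rw [tb2, star_sum, Finset.sum_mul_sum]
    have e : re T (∑ i, ∑ j, star (z i) * z j) = ∑ i, n2 T (z i) ^ 2 := by
      rw [re_sum]
      refine Finset.sum_congr rfl (fun i _ => ?_)
      rw [re_sum, tb2, Finset.sum_eq_single i]
      · intro j _ hj
        unfold re
        rw [hzo i j (Ne.symm hj)]; simp
      · simp
    rw [e]
    refine (Finset.sum_le_sum (fun i _ => hzn i)).trans ?_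
    rw [← Finset.mul_sum]
    nlinarith [sq_nonneg (2 * δ)]
  exact le_of_sq_le_sq hZ (by positivity)

end NILG

open NILG in
theorem t_NILG (hTB : StTB.{u}) : StNILG.{u} := by
  intro A _ _ _ _ hDIV hCell g ε hg0 hg1 hε
  set δ : ℝ := ε / 8 with hδ
  have hδp : 0 < δ := by positivity
  obtain ⟨N, D, t, hD, hDo, hT⟩ := hCell 0 (fun _ => g) δ (fun _ => ⟨hg0, hg1⟩) hδp
  set ε' : ℝ := ε / (4 * (N + 1)) with hε'
  have hε'p : 0 < ε' := by positivity
  have hD0 : ∀ i, 0 ≤ D i := fun i => (hD i).1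
  have hD1 : ∀ i, D i ≤ 1 := fun i => (hD i).2.1
  have hx := fun i => hDIV (cfc f0 (D i)) ε' (k_nonneg (hD0 i) (hD1 i)) (k_le_one (hD0 i) (hD1 i))
    hε'p
  choose x hxx hxh hxp hxT using hx
  have hxG : ∀ i, x i * (1 - D i * cfc q0 (D i)) = 0 := fun i => xG (hD0 i) (hD1 i) (hxh i)
  have hGx : ∀ i, (1 - D i * cfc q0 (D i)) * x i = 0 := fun i => Gx (hD0 i) (hD1 i) (hxh i)
  have hsxG : ∀ i, star (x i) * (1 - D i * cfc q0 (D i)) = 0 :=
    fun i => sxG (hD0 i) (hD1 i) (hxh i)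
  have hGsx : ∀ i, (1 - D i * cfc q0 (D i)) * star (x i) = 0 :=
    fun i => Gsx (hD0 i) (hD1 i) (hxh i)
  have o1 : ∀ i j, i ≠ j → x i * x j = 0 := fun i j hij =>
    orth2 (hD0 i) (hD1 i) (hDo i j hij) (hxG i) (hGx j)
  have o2 : ∀ i j, i ≠ j → x i * star (x j) = 0 := fun i j hij =>
    orth2 (hD0 i) (hD1 i) (hDo i j hij) (hxG i) (hGsx j)
  have o3 : ∀ i j, i ≠ j → star (x i) * x j = 0 := fun i j hij =>
    orth2 (hD0 i) (hD1 i) (hDo i j hij) (hsxG i) (hGx j)
  have hPo : ∀ i j, i ≠ j → PP (x i) * PP (x j) = 0 := fun i j hij =>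
    PP_orth (hD0 i) (hD1 i) (hxh i) (hD0 j) (hD1 j) (hxh j) (hDo i j hij)
  have hPsq : ∀ i, PP (x i) * PP (x i) ≤ PP (x i) := fun i => sq_le_self (PP_nonneg _) (hxp i)
  obtain ⟨hP0, hP1, hP2, hP3⟩ := orth_sum (fun i => PP (x i)) (fun i => PP_nonneg _) hPsq hPo
  have s1 : (∑ i, x i) * (∑ i, x i) = 0 := by
    rw [Finset.sum_mul_sum]
    refine Finset.sum_eq_zero fun i _ => Finset.sum_eq_zero fun j _ => ?_
    rcases eq_or_ne i j with h | h
    · rw [h]; exact hxx j
    · exact o1 i j h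
  have s2 : star (∑ i, x i) * (∑ i, x i) = ∑ i, star (x i) * x i := by
    rw [star_sum, Finset.sum_mul_sum]
    refine Finset.sum_congr rfl (fun i _ => ?_)
    rw [Finset.sum_eq_single i]
    · intro j _ hj; exact o3 i j (Ne.symm hj)
    · simp
  have s3 : (∑ i, x i) * star (∑ i, x i) = ∑ i, x i * star (x i) := by
    rw [star_sum, Finset.sum_mul_sum]
    refine Finset.sum_congr rfl (fun i _ => ?_)
    rw [Finset.sum_eq_single i]
    · intro j _ hj; exact o2 i j (Ne.symm hj)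
    · simp
  have s4 : star (∑ i, x i) * (∑ i, x i) + (∑ i, x i) * star (∑ i, x i) = ∑ i, PP (x i) := by
    rw [s2, s3, ← Finset.sum_add_distrib]
    rfl
  refine ⟨∑ i, x i, s1, by rw [s4]; exact hP2, ?_⟩
  intro T hST
  obtain ⟨tb1, tb2, tb3, tb4, tb5, tb6, tb7, tb8, tb9, tb10, tb11, tb12, tb13, tb14, tb15, tb16⟩ :=
    hTB A T hST
  obtain ⟨hT1, hT2⟩ := hT T hST
  have re_sum : ∀ (g : Fin N → A), re T (∑ i, g i) = ∑ i, re T (g i) := by
    intro g; unfold re; rw [map_sum, Complex.re_sum]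
  have re_sub : ∀ a b : A, re T (a - b) = re T a - re T b := by
    intro a b; unfold re; rw [map_sub, Complex.sub_re]
  have re_add : ∀ a b : A, re T (a + b) = re T a + re T b := by
    intro a b; unfold re; rw [map_add, Complex.add_re]
  have re_one : re T (1 : A) = 1 := by unfold re; rw [hST.1]; simp
  obtain ⟨-, -, hDs, -⟩ := orth_sum D hD0 (fun i => sq_le_self (hD0 i) (hD1 i)) hDo
  have hDs' : ∑ i, re T (D i) ≤ 1 := by
    rw [← re_sum, ← re_one]; exact tb12 _ _ hDs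
  constructor
  · rw [s4, re_sub, re_one, re_sum]
    have h1 : ∀ i, 2 * re T (D i * D i) - re T (D i) - ε' ≤ re T (PP (x i)) := by
      intro i
      have h2 := (hxT i T hST).1
      have h4 := tb12 _ _ (k_ge (hD0 i) (hD1 i))
      rw [re_sub, re_add] at h4
      have h5 := abs_le.1 h2
      change - ε' ≤ re T (PP (x i)) - re T (cfc f0 (D i)) ∧ _ at h5
      linarith [h5.1]
    have h2 := Finset.sum_le_sum (fun i (_ : i ∈ Finset.univ) => h1 i)
    rw [Finset.sum_sub_distrib, Finset.sum_sub_distrib, ← Finset.mul_sum] at h2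
    simp only [Finset.sum_const, Finset.card_univ, Fintype.card_fin, nsmul_eq_mul] at h2
    have h3 : (N : ℝ) * ε' ≤ ε / 4 := by
      rw [hε']
      rw [show (N : ℝ) * (ε / (4 * (N + 1))) = (ε / 4) * (N / (N + 1)) by
        field_simp]
      have : (N : ℝ) / (N + 1) ≤ 1 := by
        rw [div_le_one (by positivity)]; linarith
      nlinarith
    linarith
  · have hgsa : IsSelfAdjoint g := hg0.isSelfAdjoint
    have hn : ∑ i, n2 T (x i) ^ 2 ≤ 1 := by
      have h1 : ∑ i, n2 T (x i) ^ 2 ≤ ∑ i, re T (PP (x i)) := by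
        refine Finset.sum_le_sum fun i _ => ?_
        rw [tb2]
        exact tb12 _ _ (le_add_of_nonneg_right (mul_star_self_nonneg (x i)))
      refine h1.trans ?_
      rw [← re_sum, ← re_one]
      exact tb12 _ _ hP2
    have hn' : ∑ i, n2 T (star (x i)) ^ 2 ≤ 1 := by
      simp only [tb6]
      exact hn
    have e1 := sum_est hTB T hST g hgsa D x (fun i => t i 0) δ hδp.le hD0 hD1
      (fun i => (hD i).2.2.1) hGx o2 hn
    have e2 := sum_est hTB T hST g hgsa D (fun i => star (x i)) (fun i => t i 0) δ hδp.le hD0 hD1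
      (fun i => (hD i).2.2.1) hGsx (fun i j hij => by rw [star_star]; exact o3 i j hij) hn'
    have hwsa : ∀ i, IsSelfAdjoint (g - ((t i 0 : ℝ) : ℂ) • (1 : A)) := by
      intro i
      refine hgsa.sub ?_
      rw [IsSelfAdjoint, star_smul, star_one]
      simp
    have hcomm : (∑ i, x i) * g - g * (∑ i, x i) =
        star (∑ i, (g - ((t i 0 : ℝ) : ℂ) • 1) * star (x i)) -
          ∑ i, (g - ((t i 0 : ℝ) : ℂ) • 1) * x i := by
      rw [star_sum, Finset.sum_mul, Finset.mul_sum, ← Finset.sum_sub_distrib,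
        ← Finset.sum_sub_distrib]
      refine Finset.sum_congr rfl (fun i _ => ?_)
      rw [star_mul, star_star, (hwsa i).star_eq, mul_sub, sub_mul, mul_smul_comm, smul_mul_assoc,
        mul_one, one_mul]
      abel
    rw [hcomm]
    refine (tb4 _ _).trans ?_
    rw [tb6]
    linarith

end Pool.Agent.H327R4.NU.UM
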