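import Pool.Agent.H327R4.NU.Stubs

/-!
# Uniformly McDuff from uniform property Gamma and decomposable approximations: all statements
-/

set_option autoImplicit false

namespace Pool.Agent.H327R4.NU.UM

open Filter Topology Pool.Agent.H327R4.Pure Pool.Agent.H327R4.NU

universe u

section props

variable (A : Type u) [CStarAlgebra A] [PartialOrder A] [StarOrderedRing A] [TrSet A]

/-- nilpotents almost commuting with one positive contraction, with almost full support -/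
def NilG : Prop := ∀ (g : A) (ε : ℝ), 0 ≤ g → g ≤ 1 → 0 < ε →
  ∃ x : A, x * x = 0 ∧ star x * x + x * star x ≤ 1 ∧ ∀ T : Tr A, St T →
    re T (1 - (star x * x + x * star x)) ≤ ε ∧ n2 T (x * g - g * x) ≤ ε

/-- nilpotents in the commutant of an order zero map -/
def ComZ : Prop := ∀ (b : ℕ) (n : Fin b → ℕ) (φ : FD n →ₗ[ℂ] A), OZ φ →
  ∀ (m : ℕ) (x : Fin m → FD n) (ε : ℝ), 0 < ε →
    ∃ Z : A, star Z * Z ≤ 1 ∧ ∀ T : Tr A, St T → n2 T (Z * Z) ≤ ε ∧
      n2 T (1 - (star Z * Z + Z * star Z)) ^ 2 ≤ 8 * re T (1 - φ 1) + ε ∧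
      ∀ j, n2 T (Z * φ (x j) - φ (x j) * Z) ≤ ε

/-- partitions of unity into `2 ^ R` almost projections of equal trace, almost commuting with
finitely many elements -/
def Halv : Prop := ∀ (R m : ℕ) (a : Fin m → A) (ε : ℝ), 0 < ε →
  ∃ r : Fin (2 ^ R) → A, ∑ w, star (r w) * r w = 1 ∧ ∀ T : Tr A, St T →
    (∀ w w', w ≠ w' → n2 T (r w * star (r w')) ≤ ε) ∧
    ∀ w, n2 T (r w * star (r w) * r w - r w) ≤ ε ∧
      ∀ j, n2 T (r w * a j - a j * r w) ≤ ε ∧
        ‖T.f (r w * star (r w) * a j) - (1 / 2 : ℂ) ^ R * T.f (a j)‖ ≤ ε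

/-- convex combinations of nilpotents, almost commuting with finitely many elements in the
mean -/
def Loc : Prop := ∀ (m : ℕ) (a : Fin m → A) (ε : ℝ), 0 < ε →
  ∃ (K : ℕ) (l : Fin K → ℝ), (∀ k, 0 ≤ l k) ∧ ∑ k, l k = 1 ∧ ∀ ε' : ℝ, 0 < ε' →
    ∃ z : Fin K → A, (∀ k, star (z k) * z k ≤ 1) ∧ ∀ T : Tr A, St T →
      (∀ k, n2 T (z k * z k) ≤ ε') ∧
      ∑ k, l k * n2 T (1 - (star (z k) * z k + z k * star (z k))) ^ 2 ≤ ε ∧
      ∀ j, ∑ k, l k * n2 T (z k * a j - a j * z k) ^ 2 ≤ ε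

/-- uniformly McDuff: almost central matrix units `v` of `M_2`, in the uniform 2-norm -/
def UM : Prop := ∀ (m : ℕ) (a : Fin m → A) (ε : ℝ), 0 < ε →
  ∃ v : A, ‖v‖ ≤ 1 ∧ ∀ T : Tr A, St T → n2 T (v * v) ≤ ε ∧
    n2 T (1 - (star v * v + v * star v)) ≤ ε ∧ ∀ j, n2 T (v * a j - a j * v) ≤ ε

end props

def StNILG : Prop := ∀ (A : Type u) [CStarAlgebra A] [PartialOrder A] [StarOrderedRing A] [TrSet A],
  DIV A → Cell A → NilG A

def StCOMZ : Prop := ∀ (A : Type u) [CStarAlgebra A] [PartialOrder A] [StarOrderedRing A] [TrSet A],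
  NilG A → ComZ A

def StHALV : Prop := ∀ (A : Type u) [CStarAlgebra A] [PartialOrder A] [StarOrderedRing A] [TrSet A],
  UGamma A → Halv A

def StLOC : Prop := ∀ (A : Type u) [CStarAlgebra A] [PartialOrder A] [StarOrderedRing A] [TrSet A],
  ComZ A → Decomp A → Loc A

/-- Cauchy-Schwarz: if `∑ r_w^* r_w ≤ 1` then `|∑ r_w^* y_w|^2 ≤ ∑ |y_w|^2` -/
def StNRM : Prop := ∀ (A : Type u) [CStarAlgebra A] [PartialOrder A] [StarOrderedRing A] [TrSet A]
  (N : ℕ) (r y : Fin N → A), ∑ w, star (r w) * r w ≤ 1 →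
    star (∑ w, star (r w) * y w) * (∑ w, star (r w) * y w) ≤ ∑ w, star (y w) * y w

/-- rounding of weights to multiples of `2 ^ (-R)` -/
def StWT : Prop := ∀ (K : ℕ) (l : Fin K → ℝ), (∀ k, 0 ≤ l k) → ∑ k, l k = 1 → ∀ R : ℕ,
  ∃ κ : Fin (2 ^ R) → Fin K, ∀ k : Fin K,
    (((Finset.univ.filter (fun w => κ w = k)).card : ℕ) : ℝ) ≤ 2 ^ R * l k + 1

/-- gluing: commutators -/
def StGLUEA : Prop := ∀ (A : Type u) [CStarAlgebra A] [PartialOrder A] [StarOrderedRing A] [TrSet A]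
  (N : ℕ) (r z : Fin N → A), ∑ w, star (r w) * r w = 1 → (∀ w, star (z w) * z w ≤ 1) →
    star (∑ w, star (r w) * z w * r w) * (∑ w, star (r w) * z w * r w) ≤ 1 ∧
    ∀ (T : Tr A), St T → ∀ (a : A) (ε : ℝ), 0 ≤ ε → (∀ w, n2 T (r w * a - a * r w) ≤ ε) →
      (∀ w, n2 T (r w * star a - star a * r w) ≤ ε) →
      n2 T ((∑ w, star (r w) * z w * r w) * a - a * (∑ w, star (r w) * z w * r w)) ≤
        Real.sqrt (∑ w, re T (r w * star (r w) *
          (star (z w * a - a * z w) * (z w * a - a * z w)))) + 2 * N * ε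

/-- gluing: the relations of the matrix units -/
def StGLUEB : Prop := ∀ (A : Type u) [CStarAlgebra A] [PartialOrder A] [StarOrderedRing A] [TrSet A]
  (N : ℕ) (r z : Fin N → A), ∑ w, star (r w) * r w = 1 → (∀ w, star (z w) * z w ≤ 1) →
    ∀ (T : Tr A), St T → ∀ (ε : ℝ), 0 ≤ ε →
      (∀ w w', w ≠ w' → n2 T (r w * star (r w')) ≤ ε) →
      (∀ w, n2 T (r w * star (r w) * r w - r w) ≤ ε) →
      (∀ w, n2 T (r w * z w - z w * r w) ≤ ε) →
      (∀ w, n2 T (r w * star (z w) - star (z w) * r w) ≤ ε) →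
      (∀ w, n2 T (z w * z w) ≤ ε) →
      n2 T ((∑ w, star (r w) * z w * r w) * (∑ w, star (r w) * z w * r w)) ≤ 4 * N ^ 2 * ε ∧
      n2 T (1 - (star (∑ w, star (r w) * z w * r w) * (∑ w, star (r w) * z w * r w) +
        (∑ w, star (r w) * z w * r w) * star (∑ w, star (r w) * z w * r w))) ≤
        Real.sqrt (∑ w, re T (r w * star (r w) *
          ((1 - (star (z w) * z w + z w * star (z w))) *
            (1 - (star (z w) * z w + z w * star (z w)))))) + 8 * N ^ 2 * ε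

def StUMB : Prop := ∀ (A : Type u) [CStarAlgebra A] [PartialOrder A] [StarOrderedRing A] [TrSet A],
  Loc A → Halv A → UM A

/-- THE THEOREM -/
def StUM : Prop := ∀ (A : Type u) [CStarAlgebra A] [PartialOrder A] [StarOrderedRing A] [TrSet A],
  DIV A → Cell A → UGamma A → Decomp A → UM A

theorem um_of (h1 : StNILG.{u}) (h2 : StCOMZ.{u}) (h3 : StHALV.{u}) (h4 : StLOC.{u})
    (h5 : StUMB.{u}) : StUM.{u} := by
  intro A _ _ _ _ hD hC hG hN
  exact h5 A (h4 A (h2 A (h1 A hD hC)) hN) (h3 A hG)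

end Pool.Agent.H327R4.NU.UM
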