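import Pool.Agent.H327R4.NU.UM.Stubs

set_option autoImplicit false

namespace Pool.Agent.H327R4.NU.UM

theorem t_WT : StWT := by
  intro K l hl hs R
  classical
  set m : Fin K → ℕ := fun k => Nat.ceil ((2 : ℝ) ^ R * l k) with hm
  have h1 : ∀ k, (2 : ℝ) ^ R * l k ≤ (m k : ℝ) := fun k => Nat.le_ceil _
  have h2 : ∀ k, (m k : ℝ) ≤ 2 ^ R * l k + 1 := by
    intro k
    have h0 : (0 : ℝ) ≤ 2 ^ R * l k := mul_nonneg (by positivity) (hl k)
    exact (Nat.ceil_lt_add_one h0).le
  have h3 : Fintype.card (Fin (2 ^ R)) ≤ Fintype.card (Sigma fun k : Fin K => Fin (m k)) := by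
    rw [Fintype.card_sigma]
    simp only [Fintype.card_fin]
    have h4 : ((2 ^ R : ℕ) : ℝ) ≤ ((∑ k, m k : ℕ) : ℝ) := by
      push_cast
      calc (2 : ℝ) ^ R = 2 ^ R * ∑ k, l k := by rw [hs, mul_one]
        _ = ∑ k, 2 ^ R * l k := by rw [Finset.mul_sum]
        _ ≤ ∑ k, (m k : ℝ) := Finset.sum_le_sum (fun k _ => h1 k)
    exact_mod_cast h4
  obtain ⟨e⟩ := Function.Embedding.nonempty_of_card_le h3
  refine ⟨fun w => (e w).1, fun k => ?_⟩
  refine le_trans ?_ (h2 k)
  have h5 : (Finset.univ.filter (fun w => (e w).1 = k)).card ≤ (Finset.univ : Finset (Fin (m k))).card := by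
    refine Finset.card_le_card_of_surjOn (fun i => if h : ∃ w, e w = ⟨k, i⟩ then h.choose else ⟨0, by positivity⟩) ?_
    intro w hw
    simp only [Finset.coe_filter, Finset.mem_univ, true_and, Set.mem_ofPred_eq] at hw
    rcases he : e w with ⟨k', i⟩
    rw [he] at hw
    simp only at hw
    subst hw
    refine ⟨i, by simp, ?_⟩
    have hex : ∃ w, e w = ⟨k', i⟩ := ⟨w, he⟩
    simp only [dif_pos hex]
    apply e.injective
    rw [hex.choose_spec, he]
  rw [Finset.card_univ, Fintype.card_fin] at h5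
  exact_mod_cast h5

end Pool.Agent.H327R4.NU.UM
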